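import Pool.Agent.TH839.UH.EP
import Pool.Agent.TH839.NA.Raw

/-!
# Euler products over the rational primes as L-series with traces
-/

set_option autoImplicit false

open Complex Filter Topology Set
open scoped ComplexConjugate

namespace Pool.Agent.Run7.h833.GW

open Pool.Agent.TH839.UH Pool.Agent.TH839.NA Pool.Agent.W355.UN

/-! ### The coefficients from the traces -/

/-- the coefficients of the Dirichlet series with given traces -/
noncomputable def bR (c : ℕ → ℂ) (n : ℕ) : ℂ :=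
  if n = 0 then 0 else if n = 1 then 1 else
    (((Real.log n : ℝ) : ℂ))⁻¹ * ∑ d ∈ n.divisors.attach,
      if d.1 = 1 then 0 else ((ArithmeticFunction.vonMangoldt d.1 : ℝ) : ℂ) * c d.1 * bR c (n / d.1)
termination_by n
decreasing_by
  rename_i h0 h1 h2
  have hdpos := Nat.pos_of_mem_divisors d.2
  exact Nat.div_lt_self (Nat.pos_of_ne_zero h0) (by omega)

lemma bR_one (c : ℕ → ℂ) : bR c 1 = 1 := by
  rw [bR]; simp

lemma bR_conv (c : ℕ → ℂ) : Conv (bR c) c := by
  intro n hn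
  rcases eq_or_ne n 1 with rfl | h1
  · simp
  have hlog : ((Real.log n : ℝ) : ℂ) ≠ 0 := by
    have : 0 < Real.log n := Real.log_pos (by
      have : 2 ≤ n := by omega
      exact_mod_cast this)
    exact_mod_cast this.ne'
  rw [bR, if_neg hn, if_neg h1, mul_comm, ← mul_assoc, mul_inv_cancel₀ hlog, one_mul,
    ← Finset.sum_attach n.divisors]
  refine Finset.sum_congr rfl fun d _ => ?_
  split_ifs with h
  · rw [h]; simp
  · rfl

/-! ### The traces of an Euler product -/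

variable {m : ℕ}

/-- the traces `c(p^k) = ∑ α_{p,j}^k` -/
noncomputable def cE (α : Nat.Primes → Fin m → ℂ) (n : ℕ) : ℂ :=
  if h : IsPrimePow n then ∑ j, α ⟨n.minFac, Nat.minFac_prime h.ne_one⟩ j ^ (n.factorization n.minFac) else 0

lemma cE_pow (α : Nat.Primes → Fin m → ℂ) (p : Nat.Primes) (k : ℕ) : cE α ((p : ℕ) ^ (k + 1)) = ∑ j, α p j ^ (k + 1) := by
  have hp := p.2
  have h : IsPrimePow ((p : ℕ) ^ (k + 1)) := hp.isPrimePow.pow (Nat.succ_ne_zero k)
  unfold cE
  rw [dif_pos h]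
  have h1 : ((p : ℕ) ^ (k + 1)).minFac = p := hp.pow_minFac (Nat.succ_ne_zero k)
  have h2 : ((p : ℕ) ^ (k + 1)).factorization ((p : ℕ) ^ (k + 1)).minFac = k + 1 := by
    rw [h1, hp.factorization_pow, Finsupp.single_eq_same]
  have h3 : (⟨((p : ℕ) ^ (k + 1)).minFac, Nat.minFac_prime h.ne_one⟩ : Nat.Primes) = p := Subtype.ext h1
  rw [h2, h3]

lemma cE_le {α : Nat.Primes → Fin m → ℂ} (hα : ∀ p j, ‖α p j‖ ≤ ((p : ℕ) : ℝ) ^ (1 / 2 : ℝ)) (n : ℕ) :
    ‖cE α n‖ ≤ m * (n : ℝ) ^ (1 / 2 : ℝ) := by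
  by_cases h : IsPrimePow n
  · obtain ⟨p, k, hp, hk, rfl⟩ := (isPrimePow_nat_iff n).1 h
    obtain ⟨j, rfl⟩ : ∃ j, k = j + 1 := ⟨k - 1, by omega⟩
    have h1 := cE_pow α ⟨p, hp⟩ j
    rw [show (((⟨p, hp⟩ : Nat.Primes) : ℕ)) = p from rfl] at h1
    rw [h1]
    have h2 : ∀ i : Fin m, ‖α ⟨p, hp⟩ i ^ (j + 1)‖ ≤ ((p ^ (j + 1) : ℕ) : ℝ) ^ (1 / 2 : ℝ) := by
      intro i
      rw [norm_pow]
      have h3 := pow_le_pow_left₀ (norm_nonneg _) (hα ⟨p, hp⟩ i) (j + 1)
      refine h3.trans (le_of_eq ?_)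
      show ((p : ℝ) ^ (1 / 2 : ℝ)) ^ (j + 1) = _
      rw [← Real.rpow_natCast, ← Real.rpow_mul (Nat.cast_nonneg _), mul_comm, Real.rpow_mul (Nat.cast_nonneg _),
        Real.rpow_natCast]
      push_cast
      rfl
    refine (norm_sum_le _ _).trans ((Finset.sum_le_sum fun i _ => h2 i).trans (le_of_eq ?_))
    rw [Finset.sum_const, Finset.card_univ, Fintype.card_fin, nsmul_eq_mul]
  · unfold cE
    rw [dif_neg h, norm_zero]
    positivity

/-! ### The logarithm of the Euler product as a Dirichlet series -/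

/-- the coefficients of the logarithm -/
noncomputable def lE (c : ℕ → ℂ) (n : ℕ) : ℂ := (((ArithmeticFunction.vonMangoldt n / Real.log n : ℝ)) : ℂ) * c n

lemma lam_le (n : ℕ) : |ArithmeticFunction.vonMangoldt n / Real.log n| ≤ 1 := by
  have h0 : 0 ≤ ArithmeticFunction.vonMangoldt n := ArithmeticFunction.vonMangoldt_nonneg
  rcases Nat.lt_or_ge n 2 with h | h
  · have : ArithmeticFunction.vonMangoldt n = 0 := by
      interval_cases n <;> simp
    rw [this, zero_div, abs_zero]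
    exact zero_le_one
  · have hlog : 0 < Real.log n := Real.log_pos (by exact_mod_cast h)
    rw [abs_of_nonneg (div_nonneg h0 hlog.le), div_le_one hlog]
    exact ArithmeticFunction.vonMangoldt_le_log

lemma lE_le {c : ℕ → ℂ} (hc : ∀ n : ℕ, ‖c n‖ ≤ m * (n : ℝ) ^ (1 / 2 : ℝ)) (n : ℕ) :
    ‖lE c n‖ ≤ m * (n : ℝ) ^ ((3 / 2 : ℝ) - 1) := by
  unfold lE
  rw [norm_mul, Complex.norm_real, Real.norm_eq_abs]
  have h1 := lam_le n
  have h2 := hc n
  rw [show (3 / 2 : ℝ) - 1 = 1 / 2 by norm_num]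
  calc _ ≤ 1 * ‖c n‖ := mul_le_mul_of_nonneg_right h1 (norm_nonneg _)
    _ ≤ _ := by rw [one_mul]; exact h2

lemma lE_summable {c : ℕ → ℂ} (hc : ∀ n : ℕ, ‖c n‖ ≤ m * (n : ℝ) ^ (1 / 2 : ℝ)) {s : ℂ} (hs : 3 / 2 < s.re) :
    LSeriesSummable (lE c) s :=
  LSeriesSummable_of_le_const_mul_rpow hs ⟨m, fun n _ => lE_le hc n⟩

lemma lE_absc {c : ℕ → ℂ} (hc : ∀ n : ℕ, ‖c n‖ ≤ m * (n : ℝ) ^ (1 / 2 : ℝ)) :
    LSeries.abscissaOfAbsConv (lE c) ≤ ((3 / 2 : ℝ) : EReal) := by
  refine LSeries.abscissaOfAbsConv_le_of_forall_lt_LSeriesSummable fun y hy => lE_summable hc ?_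
  rw [Complex.ofReal_re]
  exact hy

/-- the Dirichlet series with traces `c` is the exponential of the series of `lE c` -/
theorem lser_exp {b c : ℕ → ℂ} (hb1 : b 1 = 1) (hconv : Conv b c) (hc : ∀ n : ℕ, ‖c n‖ ≤ m * (n : ℝ) ^ (1 / 2 : ℝ))
    {s : ℂ} (hs : 3 / 2 < s.re) : LSeries b s = cexp (LSeries (lE c) s) := by
  have hcoef : ∀ s : ℂ, 3 / 2 < s.re → LSeriesSummable b s ∧ LSeries b s ≠ 0 ∧ logDeriv (LSeries b) s =
      -LSeries (fun n => ((ArithmeticFunction.vonMangoldt n : ℝ) : ℂ) * (c n * pw (-(1 / 2)) n)) (s - (1 / 2 : ℝ)) := by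
    intro s hs
    have hs' : 1 < (s - (1 / 2 : ℝ)).re := by
      rw [sub_re, ofReal_re]
      linarith
    obtain ⟨h1, h2, h3⟩ := Pool.Agent.W672.UN.coef m (fun n => b n * pw (-(1 / 2)) n)
      (fun n => c n * pw (-(1 / 2)) n) (by rw [hb1, pw_one, one_mul]) (cb_tw hc) (conv_pw hconv _)
      (s - (1 / 2 : ℝ)) hs'
    refine ⟨summ_shift h1, ?_, ?_⟩
    · rw [lser_shift b (1 / 2)]
      exact h2
    · rw [lser_shift b (1 / 2), ← h3, logDeriv_apply, logDeriv_apply, deriv_comp_sub_const]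
  have hbabs : LSeries.abscissaOfAbsConv b ≤ ((3 / 2 : ℝ) : EReal) := by
    refine LSeries.abscissaOfAbsConv_le_of_forall_lt_LSeriesSummable fun y hy => (hcoef _ ?_).1
    rw [Complex.ofReal_re]
    exact hy
  set U : Set ℂ := {s : ℂ | 3 / 2 < s.re} with hU
  have hUo : IsOpen U := isOpen_lt continuous_const Complex.continuous_re
  have hUc : Convex ℝ U := convex_halfSpace_re_gt (3 / 2)
  have hlt : ∀ {s : ℂ}, s ∈ U → LSeries.abscissaOfAbsConv b < s.re ∧ LSeries.abscissaOfAbsConv (lE c) < s.re := by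
    intro s hs
    have hs' : ((3 / 2 : ℝ) : EReal) < (s.re : EReal) := by exact_mod_cast hs
    exact ⟨lt_of_le_of_lt hbabs hs', lt_of_le_of_lt (lE_absc hc) hs'⟩
  -- the derivative of the quotient vanishes
  have hder : ∀ s ∈ U, HasDerivAt (fun z => LSeries b z * cexp (-LSeries (lE c) z)) 0 s := by
    intro s hs
    obtain ⟨l1, l2⟩ := hlt hs
    obtain ⟨-, h2, h3⟩ := hcoef s hs
    have d1 := LSeries_hasDerivAt l1
    have d2 := LSeries_hasDerivAt l2
    have d3 := d1.mul (d2.neg.cexp)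
    have e1 : LSeries (LSeries.logMul (lE c)) s =
        LSeries (fun n => ((ArithmeticFunction.vonMangoldt n : ℝ) : ℂ) * (c n * pw (-(1 / 2)) n)) (s - (1 / 2 : ℝ)) := by
      have e2 : LSeries (LSeries.logMul (lE c)) s = LSeries (fun n => ((ArithmeticFunction.vonMangoldt n : ℝ) : ℂ) * c n) s := by
        refine LSeries_congr (fun {n} hn => ?_) s
        unfold LSeries.logMul lE
        rcases Nat.lt_or_ge n 2 with h | h
        · have : ArithmeticFunction.vonMangoldt n = 0 := by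
            interval_cases n <;> simp
          rw [this]; simp
        · have hlog : 0 < Real.log n := Real.log_pos (by exact_mod_cast h)
          have hl : Complex.log n = ((Real.log n : ℝ) : ℂ) := by
            rw [Complex.ofReal_log (Nat.cast_nonneg _)]
            simp
          rw [hl, ← mul_assoc, ← Complex.ofReal_mul, mul_div_cancel₀ _ hlog.ne']
      rw [e2, lser_shift (fun n => ((ArithmeticFunction.vonMangoldt n : ℝ) : ℂ) * c n) (1 / 2)]
      simp only [mul_assoc]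
    have e3 : -LSeries (LSeries.logMul b) s = logDeriv (LSeries b) s * LSeries b s := by
      rw [logDeriv_apply, d1.deriv, div_mul_cancel₀ _ h2]
    refine d3.congr_deriv ?_
    rw [e3, h3, e1]
    ring
  have hconst : ∀ z ∈ U, ∀ w ∈ U, LSeries b z * cexp (-LSeries (lE c) z) = LSeries b w * cexp (-LSeries (lE c) w) := by
    intro z hz w hw
    refine hUc.is_const_of_fderivWithin_eq_zero (𝕜 := ℂ) (f := fun z => LSeries b z * cexp (-LSeries (lE c) z))
      (fun x hx => (hder x hx).differentiableAt.differentiableWithinAt) (fun x hx => ?_) hz hw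
    rw [((hder x hx).hasFDerivAt.hasFDerivWithinAt (s := U)).fderivWithin (hUo.uniqueDiffWithinAt hx)]
    ext
    simp
  -- the limit
  have hlim : Tendsto (fun x : ℝ => LSeries b x * cexp (-LSeries (lE c) x)) atTop (𝓝 1) := by
    have t1 := LSeries.tendsto_atTop (f := b) (lt_of_le_of_lt hbabs (by exact EReal.coe_lt_top _))
    have t2 := LSeries.tendsto_atTop (f := lE c) (lt_of_le_of_lt (lE_absc hc) (by exact EReal.coe_lt_top _))
    have t3 := t1.mul ((Complex.continuous_exp.tendsto _).comp t2.neg)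
    have e0 : lE c 1 = 0 := by unfold lE; simp
    rw [hb1, e0, neg_zero, Complex.exp_zero, mul_one] at t3
    exact t3
  have h1 : LSeries b s * cexp (-LSeries (lE c) s) = 1 := by
    refine tendsto_nhds_unique (tendsto_const_nhds.congr' ?_) hlim
    filter_upwards [eventually_gt_atTop (3 / 2 : ℝ)] with x hx
    exact hconst s hs x (by show 3 / 2 < ((x : ℂ)).re; rw [Complex.ofReal_re]; exact hx)
  rw [Complex.exp_neg] at h1
  exact (mul_inv_eq_one₀ (Complex.exp_ne_zero _)).1 h1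

/-- the logarithm of the Euler product -/
theorem LG_eq {α : Nat.Primes → Fin m → ℂ} (hα : ∀ p j, ‖α p j‖ ≤ ((p : ℕ) : ℝ) ^ (1 / 2 : ℝ)) {s : ℂ}
    (hs : 7 / 4 ≤ s.re) : EP.LG α s = LSeries (lE (cE α)) s := by
  have hsum : Summable fun n => LSeries.term (lE (cE α)) s n := lE_summable (cE_le hα) (by linarith)
  unfold LSeries
  rw [tsum_eq_tsum_primes_of_support_subset_prime_powers hsum (by
    intro n hn
    by_contra h
    apply hn
    rcases eq_or_ne n 0 with rfl | hn0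
    · simp
    · show LSeries.term (lE (cE α)) s n = 0
      rw [LSeries.term_of_ne_zero hn0]
      have h' : ¬ IsPrimePow n := h
      have h2 : cE α n = 0 := dif_neg h'
      have : lE (cE α) n = 0 := by
        unfold lE
        rw [h2, mul_zero]
      rw [this, zero_div])]
  unfold EP.LG
  refine tsum_congr fun p => ?_
  unfold EP.F
  have hp0 : ((p : ℕ) : ℂ) ≠ 0 := EP.p0 p
  have hlogp : (0 : ℝ) < Real.log p := Real.log_pos (by exact_mod_cast p.2.one_lt)
  have h1 : ∀ j : Fin m, HasSum (fun k : ℕ => EP.u α p j s ^ (k + 1) / (k + 1)) (-log (1 + -EP.u α p j s)) := by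
    intro j
    have h2 := (EP.u_le hα p j hs).2
    have h3 := hasSum_taylorSeries_neg_log' (z := EP.u α p j s) (by linarith)
    rwa [sub_eq_add_neg] at h3
  have h2 := hasSum_sum (s := Finset.univ) fun j _ => h1 j
  rw [← h2.tsum_eq]
  refine tsum_congr fun k => ?_
  have hpk : (p : ℕ) ^ (k + 1) ≠ 0 := pow_ne_zero _ p.2.ne_zero
  rw [LSeries.term_of_ne_zero hpk]
  unfold lE
  rw [cE_pow, ArithmeticFunction.vonMangoldt_apply_pow (Nat.succ_ne_zero k), ArithmeticFunction.vonMangoldt_apply_prime p.2]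
  have e1 : Real.log ((p ^ (k + 1) : ℕ) : ℝ) = (k + 1) * Real.log p := by
    push_cast
    rw [Real.log_pow]
    push_cast
    rfl
  have e2 : Real.log p / Real.log ((p ^ (k + 1) : ℕ) : ℝ) = 1 / (k + 1) := by
    rw [e1]
    have : (0 : ℝ) < k + 1 := by positivity
    field_simp
  rw [e2, Finset.mul_sum, Finset.sum_div]
  refine Finset.sum_congr rfl fun j _ => ?_
  unfold EP.u
  have e3 : (((p ^ (k + 1) : ℕ)) : ℂ) ^ s = (((p : ℕ) : ℂ) ^ s) ^ (k + 1) := by
    rw [Nat.cast_pow, ← Complex.natCast_cpow_natCast_mul]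
    rw [← Complex.cpow_nat_mul]
  rw [e3, mul_pow, Complex.cpow_neg, inv_pow]
  have e4 : (((p : ℕ) : ℂ) ^ s) ≠ 0 := by
    rw [Ne, Complex.cpow_eq_zero_iff]
    exact fun h => hp0 h.1
  push_cast
  field_simp

/-- the Euler product as an L-series -/
theorem E_eq {α : Nat.Primes → Fin m → ℂ} (hα : ∀ p j, ‖α p j‖ ≤ ((p : ℕ) : ℝ) ^ (1 / 2 : ℝ)) {s : ℂ}
    (hs : 7 / 4 ≤ s.re) : EP.E α s = LSeries (bR (cE α)) s := by
  rw [lser_exp (bR_one _) (bR_conv _) (cE_le hα) (by linarith), ← LG_eq hα hs]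
  exact (EP.prod_eq hα hs).tprod_eq

variable {r : ℕ} {N : ℝ} {a : Fin m → ℂ} {α : Nat.Primes → Fin m → ℂ} {X : ℂ → ℂ}

/-- **a completed L-function with an Euler product is in the class of the trace data** -/
theorem raw_of_hw (h : EP.HW m r N a α X) : RawT (1 / 2) m r N a (bR (cE α)) (cE α) X := by
  refine ⟨h.hm, h.hr, h.hN, by norm_num, by norm_num, h.re_ge, h.entire, h.order, h.fe, bR_one _,
    cE_le h.hα, bR_conv _, ?_⟩
  obtain ⟨σ, hσ⟩ := h.eq
  refine ⟨max σ (7 / 4), fun s hs => ?_⟩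
  rw [hσ s ((le_max_left _ _).trans hs), E_eq h.hα ((le_max_right _ _).trans hs)]

end Pool.Agent.Run7.h833.GW
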